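import Pool.Agent.H14R2.RC.Defs

namespace RC14
open scoped InnerProductSpace
open Finset

variable {G : Type*} [Group G] [Fintype G]
variable {V : Type*} [NormedAddCommGroup V] [InnerProductSpace ℂ V] [FiniteDimensional ℂ V]

/-- spectral projection of a symmetric operator `T ≤ 1` onto the eigenvalues `≥ θ` -/
theorem SPEC (T : Module.End ℂ V) (hT : T.IsSymmetric)
    (hT1 : ∀ v, (⟪T v, v⟫_ℂ).re ≤ ‖v‖ ^ 2) (θ : ℝ) (hθ : 0 < θ) (hθ1 : θ < 1) :
    ∃ E : Module.End ℂ V, SymIdem E ∧ (∀ L : ℕ, θ ^ (2 * L) * rtr E ≤ rtr (T ^ (2 * L))) ∧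
      ∀ v, (1 - θ) * ‖v - E v‖ ^ 2 ≤ ‖v‖ ^ 2 - (⟪T v, v⟫_ℂ).re := by
  classical
  set n := Module.finrank ℂ V with hn
  set b := hT.eigenvectorBasis hn.symm with hb
  set μ := hT.eigenvalues hn.symm with hμ
  have hTb : ∀ i, T (b i) = (μ i : ℂ) • b i := fun i => hT.apply_eigenvectorBasis hn.symm i
  have hpow : ∀ (L : ℕ) (i), (T ^ L) (b i) = ((μ i : ℂ) ^ L) • b i := by
    intro L i
    induction L with
    | zero => simp
    | succ L ih =>
      rw [pow_succ', Module.End.mul_apply, ih, map_smul, hTb, smul_smul, pow_succ]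
  set E : Module.End ℂ V := b.toBasis.constr ℂ (fun i => if θ ≤ μ i then b i else 0) with hE
  have hEb : ∀ i, E (b i) = if θ ≤ μ i then b i else 0 := by
    intro i
    have := b.toBasis.constr_basis ℂ (fun i => if θ ≤ μ i then b i else 0) i
    rwa [OrthonormalBasis.coe_toBasis] at this
  have hinner : ∀ i v, ⟪b i, E v⟫_ℂ = if θ ≤ μ i then ⟪b i, v⟫_ℂ else 0 := by
    intro i v
    conv_lhs => rw [← b.sum_repr v]
    rw [map_sum, inner_sum]
    simp only [map_smul, hEb, inner_smul_right]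
    rw [Finset.sum_eq_single i]
    · split_ifs with h
      · rw [b.inner_eq_one i, mul_one, b.repr_apply_apply]
      · simp
    · intro j _ hji
      split_ifs with h
      · rw [b.inner_eq_zero (Ne.symm hji), mul_zero]
      · simp
    · simp
  have hEsym : E.IsSymmetric := by
    intro v w
    rw [← b.sum_inner_mul_inner (E v) w, ← b.sum_inner_mul_inner v (E w)]
    apply Finset.sum_congr rfl
    intro i _
    rw [hinner i w, ← inner_conj_symm (E v) (b i), hinner i v]
    split_ifs with h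
    · rw [inner_conj_symm]
    · simp
  have hEidem : E * E = E := by
    apply b.toBasis.ext
    intro i
    rw [OrthonormalBasis.coe_toBasis, Module.End.mul_apply, hEb]
    split_ifs with h
    · rw [hEb, if_pos h]
    · simp
  have hnorm : ∀ w : V, ‖w‖ ^ 2 = ∑ i, ‖⟪b i, w⟫_ℂ‖ ^ 2 := fun w =>
    (b.sum_sq_norm_inner_right w).symm
  have hTre : ∀ v : V, (⟪T v, v⟫_ℂ).re = ∑ i, μ i * ‖⟪b i, v⟫_ℂ‖ ^ 2 := by
    intro v
    rw [← b.sum_inner_mul_inner (T v) v, Complex.re_sum]
    apply Finset.sum_congr rfl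
    intro i _
    rw [hT v (b i), hTb, inner_smul_right, mul_assoc, ← inner_conj_symm v (b i), mul_comm (starRingEnd ℂ _) _,
      Complex.mul_conj, ← Complex.ofReal_mul, Complex.ofReal_re, Complex.normSq_eq_norm_sq]
  have hμ1 : ∀ i, μ i ≤ 1 := by
    intro i
    have h := hT1 (b i)
    rw [hTb, inner_smul_left, b.inner_eq_one i, b.norm_eq_one i] at h
    simpa using h
  refine ⟨E, ⟨hEsym, hEidem⟩, ?_, ?_⟩
  · intro L
    unfold rtr
    rw [LinearMap.trace_eq_sum_inner E b, LinearMap.trace_eq_sum_inner (T ^ (2 * L)) b,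
      Complex.re_sum, Complex.re_sum, Finset.mul_sum]
    apply Finset.sum_le_sum
    intro i _
    rw [hinner, hpow, inner_smul_right, b.inner_eq_one i, mul_one, ← Complex.ofReal_pow,
      Complex.ofReal_re]
    split_ifs with h
    · simp only [Complex.one_re, mul_one]
      exact pow_le_pow_left₀ hθ.le h _
    · simp only [Complex.zero_re, mul_zero]
      rw [pow_mul]
      positivity
  · intro v
    rw [hnorm (v - E v), hnorm v, hTre v, ← Finset.sum_sub_distrib, Finset.mul_sum]
    apply Finset.sum_le_sum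
    intro i _
    rw [inner_sub_right, hinner]
    split_ifs with h
    · have h1 := hμ1 i
      simp only [sub_self, norm_zero]
      have h2 : 0 ≤ ‖⟪b i, v⟫_ℂ‖ ^ 2 := by positivity
      nlinarith
    · push Not at h
      rw [sub_zero]
      have h2 : 0 ≤ ‖⟪b i, v⟫_ℂ‖ ^ 2 := by positivity
      nlinarith

end RC14
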