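import Pool.Agent.H14R2.RC.Defs
import Pool.Agent.H14R2.RC.S.PEEL
import Pool.Agent.H14R2.RC.S.HSL
import Pool.Agent.H14R2.RC.S.SPEC

namespace RC14
open scoped InnerProductSpace
open Finset

variable {G : Type*} [Group G] [Fintype G]
variable {V : Type*} [NormedAddCommGroup V] [InnerProductSpace ℂ V] [FiniteDimensional ℂ V]

namespace AMP1

omit [Fintype G] [FiniteDimensional ℂ V] in
theorem inv_apply_self (ρ : G →* (V ≃ₗᵢ[ℂ] V)) (g : G) (v : V) : ρ g⁻¹ (ρ g v) = v := by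
  rw [map_inv]
  exact (ρ g).symm_apply_apply _

omit [Fintype G] [FiniteDimensional ℂ V] in
theorem self_inv_apply (ρ : G →* (V ≃ₗᵢ[ℂ] V)) (g : G) (v : V) : ρ g (ρ g⁻¹ v) = v := by
  rw [map_inv]
  exact (ρ g).apply_symm_apply _

omit [Fintype G] [FiniteDimensional ℂ V] in
theorem inner_op (ρ : G →* (V ≃ₗᵢ[ℂ] V)) (g : G) (v w : V) :
    ⟪ρ g v, w⟫_ℂ = ⟪v, ρ g⁻¹ w⟫_ℂ := by
  conv_lhs => rw [← self_inv_apply ρ g w]
  exact (ρ g).inner_map_map _ _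

omit [Fintype G] [FiniteDimensional ℂ V] in
theorem Tx_apply (ρ : G →* (V ≃ₗᵢ[ℂ] V)) (x : Fin 8 → G) (v : V) :
    Tx ρ x v = (1 / 16 : ℂ) • ∑ i, (ρ (x i) v + ρ (x i)⁻¹ v) := by
  simp [Tx]

theorem conj16 : (starRingEnd ℂ) (1 / 16 : ℂ) = 1 / 16 := by
  have h : (1 / 16 : ℂ) = ((1 / 16 : ℝ) : ℂ) := by push_cast; rfl
  rw [h, Complex.conj_ofReal]

omit [Fintype G] [FiniteDimensional ℂ V] in
theorem Tx_symm (ρ : G →* (V ≃ₗᵢ[ℂ] V)) (x : Fin 8 → G) : (Tx ρ x).IsSymmetric := by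
  intro v w
  rw [Tx_apply, Tx_apply, inner_smul_left, inner_smul_right, sum_inner, inner_sum]
  congr 1
  · exact conj16
  · apply Finset.sum_congr rfl
    intro i _
    rw [inner_add_left, inner_add_right, inner_op, inner_op, inv_inv, add_comm]

omit [Fintype G] [FiniteDimensional ℂ V] in
theorem re_inner (ρ : G →* (V ≃ₗᵢ[ℂ] V)) (g : G) (v : V) :
    (⟪ρ g v, v⟫_ℂ).re = ‖v‖ ^ 2 - ‖ρ g v - v‖ ^ 2 / 2 := by
  have h := norm_sub_sq (𝕜 := ℂ) (ρ g v) v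
  rw [(ρ g).norm_map] at h
  have h2 : RCLike.re ⟪ρ g v, v⟫_ℂ = (⟪ρ g v, v⟫_ℂ).re := rfl
  rw [h2] at h
  linarith

omit [Fintype G] [FiniteDimensional ℂ V] in
theorem re_inner_inv (ρ : G →* (V ≃ₗᵢ[ℂ] V)) (g : G) (v : V) :
    (⟪ρ g⁻¹ v, v⟫_ℂ).re = ‖v‖ ^ 2 - ‖ρ g v - v‖ ^ 2 / 2 := by
  rw [← re_inner, inner_op, inv_inv, ← inner_conj_symm, Complex.conj_re]

omit [Fintype G] [FiniteDimensional ℂ V] in
theorem Tx_energy (ρ : G →* (V ≃ₗᵢ[ℂ] V)) (x : Fin 8 → G) (v : V) :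
    (⟪Tx ρ x v, v⟫_ℂ).re = ‖v‖ ^ 2 - En ρ x v / 16 := by
  rw [Tx_apply, inner_smul_left, sum_inner]
  have h1 : (starRingEnd ℂ) (1 / 16 : ℂ) = ((1 / 16 : ℝ) : ℂ) := by
    rw [conj16]
    push_cast
    rfl
  rw [h1, Complex.re_ofReal_mul, Complex.re_sum]
  have h2 : ∀ i, (⟪ρ (x i) v + ρ (x i)⁻¹ v, v⟫_ℂ).re = 2 * ‖v‖ ^ 2 - ‖ρ (x i) v - v‖ ^ 2 := by
    intro i
    rw [inner_add_left, Complex.add_re, re_inner, re_inner_inv]
    ring
  rw [Finset.sum_congr rfl fun i _ => h2 i, Finset.sum_sub_distrib]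
  unfold En
  simp
  ring

omit [Fintype G] [FiniteDimensional ℂ V] in
theorem En_nonneg {ι : Type*} [Fintype ι] (ρ : G →* (V ≃ₗᵢ[ℂ] V)) (x : ι → G) (v : V) :
    0 ≤ En ρ x v := Finset.sum_nonneg fun i _ => by positivity

omit [FiniteDimensional ℂ V] in
theorem proj_norm (E : Module.End ℂ V) (hE : SymIdem E) (v : V) : ‖E v‖ ≤ ‖v‖ := by
  have h1 : ⟪E v, E v⟫_ℂ = ⟪v, E v⟫_ℂ := by
    rw [hE.1 v (E v), ← Module.End.mul_apply, hE.2]
  have h2 : ‖E v‖ ^ 2 ≤ ‖v‖ * ‖E v‖ := by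
    have h3 : ‖⟪E v, E v⟫_ℂ‖ = ‖E v‖ ^ 2 := by
      rw [inner_self_eq_norm_sq_to_K]
      simp
    rw [← h3, h1]
    exact norm_inner_le_norm _ _
  rcases (norm_nonneg (E v)).eq_or_lt with h | h
  · rw [← h]; exact norm_nonneg _
  · nlinarith

omit [FiniteDimensional ℂ V] in
theorem coproj_norm (E : Module.End ℂ V) (hE : SymIdem E) (v : V) : ‖v - E v‖ ≤ ‖v‖ := by
  have h1 : ⟪E v, v - E v⟫_ℂ = 0 := by
    rw [hE.1 v (v - E v), map_sub, ← Module.End.mul_apply, hE.2]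
    simp
  have h2 : ‖v‖ ^ 2 = ‖E v‖ ^ 2 + ‖v - E v‖ ^ 2 := by
    have h3 := norm_add_sq (𝕜 := ℂ) (E v) (v - E v)
    rw [h1] at h3
    simp only [add_sub_cancel, map_zero, mul_zero, add_zero] at h3
    exact h3
  have h3 : 0 ≤ ‖E v‖ ^ 2 := by positivity
  exact abs_le_of_sq_le_sq' (by linarith) (norm_nonneg _) |>.2

omit [Fintype G] [FiniteDimensional ℂ V] in
theorem cj_apply (ρ : G →* (V ≃ₗᵢ[ℂ] V)) (E : Module.End ℂ V) (z : G) (v : V) :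
    cj ρ E z v = ρ z (E (ρ z⁻¹ v)) := by
  simp [cj]

omit [Fintype G] [FiniteDimensional ℂ V] in
theorem cj_norm (ρ : G →* (V ≃ₗᵢ[ℂ] V)) (E : Module.End ℂ V) (hE : SymIdem E) (z : G) (v : V) :
    ‖cj ρ E z v‖ ≤ ‖v‖ := by
  rw [cj_apply, (ρ z).norm_map]
  calc _ ≤ ‖ρ z⁻¹ v‖ := proj_norm E hE _
    _ = ‖v‖ := (ρ z⁻¹).norm_map _

omit [Fintype G] [FiniteDimensional ℂ V] in
theorem cj_dist (ρ : G →* (V ≃ₗᵢ[ℂ] V)) (E : Module.End ℂ V) (hE : SymIdem E) (z : G) (v : V) :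
    ‖cj ρ E z v - v‖ ≤ ‖v - E v‖ + ‖ρ z v - v‖ := by
  have h1 : cj ρ E z v - v = ρ z (E (ρ z⁻¹ v) - ρ z⁻¹ v) := by
    rw [cj_apply, map_sub, self_inv_apply]
  rw [h1, (ρ z).norm_map, norm_sub_rev]
  have h2 : ρ z⁻¹ v - E (ρ z⁻¹ v) = (v - E v) + ((ρ z⁻¹ v - v) - E (ρ z⁻¹ v - v)) := by
    rw [map_sub]
    abel
  have h3 : ‖ρ z⁻¹ v - v‖ = ‖ρ z v - v‖ := by
    rw [← (ρ z).norm_map (ρ z⁻¹ v - v), map_sub, self_inv_apply, norm_sub_rev]
  rw [h2]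
  calc _ ≤ ‖v - E v‖ + ‖(ρ z⁻¹ v - v) - E (ρ z⁻¹ v - v)‖ := norm_add_le _ _
    _ ≤ ‖v - E v‖ + ‖ρ z⁻¹ v - v‖ := by
      gcongr
      exact coproj_norm E hE _
    _ = _ := by rw [h3]

omit [Fintype G] [FiniteDimensional ℂ V] in
theorem prod_dist (ρ : G →* (V ≃ₗᵢ[ℂ] V)) (E : Module.End ℂ V) (hE : SymIdem E) {q : ℕ}
    (z : Fin q → G) (v : V) (c : ℝ) (hc : ∀ i, ‖cj ρ E (z i) v - v‖ ≤ c) (s : List (Fin q)) :
    ‖(s.map fun i => cj ρ E (z i)).prod v - v‖ ≤ s.length * c := by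
  induction s with
  | nil => simp
  | cons i s ih =>
    rw [List.map_cons, List.prod_cons, Module.End.mul_apply]
    set P := (s.map fun i => cj ρ E (z i)).prod
    have h1 : cj ρ E (z i) (P v) - v = cj ρ E (z i) (P v - v) + (cj ρ E (z i) v - v) := by
      rw [map_sub]
      abel
    rw [h1, List.length_cons]
    push_cast
    calc _ ≤ ‖cj ρ E (z i) (P v - v)‖ + ‖cj ρ E (z i) v - v‖ := norm_add_le _ _
      _ ≤ ‖P v - v‖ + c := add_le_add (cj_norm ρ E hE _ _) (hc i)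
      _ ≤ s.length * c + c := by linarith
      _ = _ := by ring

end AMP1

open AMP1 in
/-- one step amplification, for an irreducible representation -/
theorem AMP1 (ρ : G →* (V ≃ₗᵢ[ℂ] V)) (hirr : Irr ρ ⊤) (x : Fin 8 → G) (L : ℕ) (η : ℝ)
    (hη : rtr (Tx ρ x ^ (2 * L)) ≤ η * Module.finrank ℂ V) (q : ℕ) (hq : 1 ≤ q) :
    (Nat.card {z : Fin q → G // ¬ ∀ v : V,
        1 / (16 * (q : ℝ) ^ 2) * ‖v‖ ^ 2 ≤ En ρ x v + En ρ z v} : ℝ) ≤
      4 * Module.finrank ℂ V * ((8 / 7 : ℝ) ^ (2 * L) * η) ^ q * (Fintype.card G : ℝ) ^ q := by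
  classical
  have hnt : Nontrivial V := by
    rcases subsingleton_or_nontrivial V with h | h
    · exfalso
      apply hirr.1
      exact Subsingleton.elim _ _
    · exact h
  have hd : (0:ℝ) < Module.finrank ℂ V := by
    exact_mod_cast Module.finrank_pos
  set d : ℝ := (Module.finrank ℂ V : ℝ) with hdd
  obtain ⟨E, hE, htr, hgap⟩ := SPEC (Tx ρ x) (Tx_symm ρ x) (by
    intro v
    rw [Tx_energy]
    have := En_nonneg ρ x v
    linarith) (7 / 8) (by norm_num) (by norm_num)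
  have hgap' : ∀ v, ‖v - E v‖ ^ 2 ≤ En ρ x v / 2 := by
    intro v
    have := hgap v
    rw [Tx_energy] at this
    linarith
  have hE0 : 0 ≤ rtr E := by
    rw [← (hs_proj E hE).1]
    exact hs_nonneg E
  have hτ0 : 0 ≤ rtr E / d := by positivity
  have hτ : rtr E / d ≤ (8 / 7 : ℝ) ^ (2 * L) * η := by
    rw [div_le_iff₀ hd]
    have h1 := (htr L).trans hη
    have h2 : (8 / 7 : ℝ) ^ (2 * L) * ((7 / 8 : ℝ) ^ (2 * L) * rtr E) = rtr E := by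
      rw [← mul_assoc, ← mul_pow]
      norm_num
    calc rtr E = (8 / 7 : ℝ) ^ (2 * L) * ((7 / 8 : ℝ) ^ (2 * L) * rtr E) := h2.symm
      _ ≤ (8 / 7 : ℝ) ^ (2 * L) * (η * d) := by gcongr
      _ = _ := by ring
  have hpeel := PEEL ρ hirr E hE q (List.finRange q)
  have hcard : (List.finRange q).toFinset.card = q := by simp
  rw [hcard] at hpeel
  set H : (Fin q → G) → ℝ := fun z => hs (((List.finRange q).map fun i => cj ρ E (z i)).prod)
    with hH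
  have hbad : ∀ z : Fin q → G, (¬ ∀ v : V,
      1 / (16 * (q : ℝ) ^ 2) * ‖v‖ ^ 2 ≤ En ρ x v + En ρ z v) → 1 ≤ 4 * H z := by
    intro z hz
    push Not at hz
    obtain ⟨v, hv⟩ := hz
    have hX := En_nonneg ρ x v
    have hZ := En_nonneg ρ z v
    have hq' : (1:ℝ) ≤ q := by exact_mod_cast hq
    have hq0 : (0:ℝ) < q := by linarith
    have hvpos : 0 < ‖v‖ := by
      rcases (norm_nonneg v).eq_or_lt with h | h
      · rw [← h] at hv
        simp at hv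
        linarith
      · exact h
    have h1 : ‖v - E v‖ ≤ ‖v‖ / (5 * q) := by
      apply abs_le_of_sq_le_sq' _ (by positivity) |>.2
      calc ‖v - E v‖ ^ 2 ≤ En ρ x v / 2 := hgap' v
        _ ≤ (1 / (16 * (q : ℝ) ^ 2) * ‖v‖ ^ 2) / 2 := by linarith
        _ = ‖v‖ ^ 2 / (32 * q ^ 2) := by ring
        _ ≤ ‖v‖ ^ 2 / (25 * q ^ 2) := by
          apply div_le_div_of_nonneg_left (by positivity) (by positivity)
          nlinarith [sq_nonneg (q:ℝ)]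
        _ = (‖v‖ / (5 * q)) ^ 2 := by ring
    have h2 : ∀ i, ‖ρ (z i) v - v‖ ≤ ‖v‖ / (4 * q) := by
      intro i
      apply abs_le_of_sq_le_sq' _ (by positivity) |>.2
      have h3 : ‖ρ (z i) v - v‖ ^ 2 ≤ En ρ z v :=
        Finset.single_le_sum (f := fun i => ‖ρ (z i) v - v‖ ^ 2) (fun i _ => by positivity)
          (Finset.mem_univ i)
      calc ‖ρ (z i) v - v‖ ^ 2 ≤ En ρ z v := h3
        _ ≤ 1 / (16 * (q : ℝ) ^ 2) * ‖v‖ ^ 2 := by linarith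
        _ = (‖v‖ / (4 * q)) ^ 2 := by ring
    have h3 : ∀ i, ‖cj ρ E (z i) v - v‖ ≤ ‖v‖ / (2 * q) := by
      intro i
      calc ‖cj ρ E (z i) v - v‖ ≤ ‖v - E v‖ + ‖ρ (z i) v - v‖ := cj_dist ρ E hE _ _
        _ ≤ ‖v‖ / (5 * q) + ‖v‖ / (4 * q) := add_le_add h1 (h2 i)
        _ = (‖v‖ / (2 * q)) * (9 / 10) := by field_simp; norm_num
        _ ≤ ‖v‖ / (2 * q) := by
          have : 0 ≤ ‖v‖ / (2 * q) := by positivity
          linarith
    have h4 := prod_dist ρ E hE z v _ h3 (List.finRange q)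
    rw [List.length_finRange] at h4
    set P := ((List.finRange q).map fun i => cj ρ E (z i)).prod with hP
    have h5 : (q:ℝ) * (‖v‖ / (2 * q)) = ‖v‖ / 2 := by field_simp
    rw [h5] at h4
    have h6 : ‖v‖ / 2 ≤ ‖P v‖ := by
      have := norm_sub_norm_le v (P v)
      rw [norm_sub_rev] at this
      linarith
    have h7 : (‖v‖ / 2) ^ 2 ≤ hs P * ‖v‖ ^ 2 := by
      calc (‖v‖ / 2) ^ 2 ≤ ‖P v‖ ^ 2 := by gcongr
        _ ≤ _ := norm_sq_le_hs P v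
    have h8 : H z = hs P := rfl
    rw [h8]
    have h9 : 0 < ‖v‖ ^ 2 := by positivity
    nlinarith
  have hcount : (Nat.card {z : Fin q → G // ¬ ∀ v : V,
        1 / (16 * (q : ℝ) ^ 2) * ‖v‖ ^ 2 ≤ En ρ x v + En ρ z v} : ℝ) ≤ ∑ z, 4 * H z := by
    rw [Nat.card_eq_fintype_card, Fintype.card_subtype]
    rw [Finset.card_eq_sum_ones]
    push_cast
    calc _ ≤ ∑ z ∈ univ.filter (fun z : Fin q → G => ¬ ∀ v : V,
        1 / (16 * (q : ℝ) ^ 2) * ‖v‖ ^ 2 ≤ En ρ x v + En ρ z v), 4 * H z := by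
          apply Finset.sum_le_sum
          intro z hz
          exact hbad z (Finset.mem_filter.mp hz).2
      _ ≤ ∑ z, 4 * H z := by
          apply Finset.sum_le_sum_of_subset_of_nonneg (Finset.filter_subset _ _)
          intro z _ _
          have : 0 ≤ H z := hs_nonneg _
          linarith
  refine hcount.trans ?_
  rw [← Finset.mul_sum]
  have hpow : (rtr E / d) ^ q ≤ ((8 / 7 : ℝ) ^ (2 * L) * η) ^ q := pow_le_pow_left₀ hτ0 hτ q
  calc 4 * ∑ z, H z ≤ 4 * ((Fintype.card G : ℝ) ^ q * d * (rtr E / d) ^ q) := by gcongr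
    _ ≤ 4 * ((Fintype.card G : ℝ) ^ q * d * ((8 / 7 : ℝ) ^ (2 * L) * η) ^ q) := by gcongr
    _ = _ := by ring

omit [Fintype G] [FiniteDimensional ℂ V] in
theorem AMP1.irr_res (ρ : G →* (V ≃ₗᵢ[ℂ] V)) (W : Submodule ℂ V) (hW : Irr ρ W) :
    Irr (res ρ W hW.2.1) ⊤ := by
  refine ⟨?_, ?_, ?_⟩
  · intro h
    apply hW.1
    rw [Submodule.eq_bot_iff]
    intro v hv
    have : (⟨v, hv⟩ : W) ∈ (⊤ : Submodule ℂ W) := Submodule.mem_top
    rw [h, Submodule.mem_bot] at this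
    exact congrArg Subtype.val this
  · intro g v _
    exact Submodule.mem_top
  · intro U _ hU
    have h1 : U.map W.subtype ≤ W := by
      rintro _ ⟨u, _, rfl⟩
      exact u.2
    have h2 : Inv ρ (U.map W.subtype) := by
      rintro g _ ⟨u, hu, rfl⟩
      exact ⟨res ρ W hW.2.1 g u, hU g u hu, rfl⟩
    rcases hW.2.2 _ h1 h2 with h | h
    · left
      rw [Submodule.eq_bot_iff]
      intro u hu
      have h3 : W.subtype u ∈ U.map W.subtype := ⟨u, hu, rfl⟩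
      rw [h, Submodule.mem_bot] at h3
      exact Subtype.ext h3
    · right
      rw [Submodule.eq_top_iff']
      intro u
      have h3 : (u : V) ∈ U.map W.subtype := by
        rw [h]; exact u.2
      obtain ⟨u', hu', he⟩ := h3
      have : u' = u := Subtype.ext he
      rwa [this] at hu'

/-- the same for an irreducible invariant subspace -/
theorem AMP1SUB (ρ : G →* (V ≃ₗᵢ[ℂ] V)) (W : Submodule ℂ V) (hW : Irr ρ W) (x : Fin 8 → G)
    (L : ℕ) (η : ℝ)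
    (hη : rtr (Tx (res ρ W hW.2.1) x ^ (2 * L)) ≤ η * Module.finrank ℂ W) (q : ℕ) (hq : 1 ≤ q) :
    (Nat.card {z : Fin q → G // ¬ ∀ v ∈ W,
        1 / (16 * (q : ℝ) ^ 2) * ‖v‖ ^ 2 ≤ En ρ x v + En ρ z v} : ℝ) ≤
      4 * Module.finrank ℂ W * ((8 / 7 : ℝ) ^ (2 * L) * η) ^ q * (Fintype.card G : ℝ) ^ q := by
  have h := AMP1 (res ρ W hW.2.1) (AMP1.irr_res ρ W hW) x L η hη q hq
  have hE : ∀ {ι : Type} [Fintype ι] (y : ι → G) (w : W),
      En (res ρ W hW.2.1) y w = En ρ y (w : V) := by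
    intro ι _ y w
    unfold En
    apply Finset.sum_congr rfl
    intro i _
    rw [Submodule.coe_norm, Submodule.coe_sub, res_apply]
  have hiff : ∀ z : Fin q → G, (¬ ∀ v ∈ W,
        1 / (16 * (q : ℝ) ^ 2) * ‖v‖ ^ 2 ≤ En ρ x v + En ρ z v) ↔
      (¬ ∀ v : W, 1 / (16 * (q : ℝ) ^ 2) * ‖v‖ ^ 2 ≤
        En (res ρ W hW.2.1) x v + En (res ρ W hW.2.1) z v) := by
    intro z
    apply not_congr
    constructor
    · intro h1 v
      rw [hE, hE, Submodule.coe_norm]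
      exact h1 v v.2
    · intro h1 v hv
      have := h1 ⟨v, hv⟩
      rw [hE, hE, Submodule.coe_norm] at this
      exact this
  have hc : Nat.card {z : Fin q → G // ¬ ∀ v ∈ W,
        1 / (16 * (q : ℝ) ^ 2) * ‖v‖ ^ 2 ≤ En ρ x v + En ρ z v} =
      Nat.card {z : Fin q → G // ¬ ∀ v : W, 1 / (16 * (q : ℝ) ^ 2) * ‖v‖ ^ 2 ≤
        En (res ρ W hW.2.1) x v + En (res ρ W hW.2.1) z v} :=
    Nat.card_congr (Equiv.subtypeEquivRight hiff)
  rw [hc]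
  exact h

end RC14
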